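import Pool.Agent.V11270.Liou.BC

/-!
# MP_14d1e0: for almost every real `n × n` matrix `A`, `n ≥ 2`, no scalar shift is Liouville
-/

set_option autoImplicit false

open Finset Filter Topology MeasureTheory

namespace Pool.Agent.Results.MP_14d1e0_nt.AlmostNoShift

/-- A real `m × n` matrix `M` is a Liouville matrix when (1) `M y ≠ x` for all integer vectors
`y`, `x` that are not both zero, and (2) for each `N > 0` there are integer vectors `x` and `y`
with `‖y‖ ≥ 2` and `‖M y - x‖ < ‖y‖ ^ (-N)`. The norms are the supremum norms.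
(For `‖y‖ = 1` the inequality in (2) would hold for every `M`, with `x` the rounding of `M y`, so
that the condition `y ≠ 0` is read as `‖y‖ ≥ 2`, as in the definition of a Liouville number.) -/
def IsLiouvilleMatrix {m n : ℕ} (M : Matrix (Fin m) (Fin n) ℝ) : Prop :=
  (∀ (y : Fin n → ℤ) (x : Fin m → ℤ), ¬ (y = 0 ∧ x = 0) →
    M.mulVec (fun j => (y j : ℝ)) ≠ fun i => (x i : ℝ)) ∧
  ∀ N : ℝ, 0 < N → ∃ (y : Fin n → ℤ) (x : Fin m → ℤ), 2 ≤ ‖y‖ ∧
    ‖M.mulVec (fun j => (y j : ℝ)) - fun i => (x i : ℝ)‖ < ‖y‖ ^ (-N)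

theorem norm_eq {n : ℕ} (hn : 0 < n) (y : Fin n → ℤ) :
    ∃ j, ‖y‖ = ((y j).natAbs : ℝ) ∧ ∀ l, |y l| ≤ ((y j).natAbs : ℤ) := by
  have : Nonempty (Fin n) := ⟨⟨0, hn⟩⟩
  obtain ⟨j, -, hj⟩ := Finset.exists_max_image (Finset.univ : Finset (Fin n)) (fun l => |y l|)
    Finset.univ_nonempty
  have hcast : ∀ z : ℤ, ((z.natAbs : ℕ) : ℝ) = ‖z‖ := by
    intro z
    rw [Int.norm_eq_abs, Nat.cast_natAbs, Int.cast_abs]
  refine ⟨j, ?_, ?_⟩
  · rw [hcast]
    apply le_antisymm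
    · rw [pi_norm_le_iff_of_nonneg (norm_nonneg _)]
      intro l
      rw [Int.norm_eq_abs, Int.norm_eq_abs, ← Int.cast_abs, ← Int.cast_abs]
      exact_mod_cast hj l (Finset.mem_univ l)
    · exact norm_le_pi_norm y j
  · intro l
    have h1 : ((y j).natAbs : ℤ) = |y j| := Int.natCast_natAbs (y j)
    rw [h1]
    exact hj l (Finset.mem_univ l)

/-- For a Liouville matrix, the norms of the good approximations are unbounded. -/
theorem inf_many {m n : ℕ} (hn : 0 < n) {M : Matrix (Fin m) (Fin n) ℝ}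
    (hM : IsLiouvilleMatrix M) (N0 : ℕ) :
    {k : ℕ | 1 ≤ k ∧ ∃ (y : Fin n → ℤ) (x : Fin m → ℤ), ‖y‖ = k ∧
      ‖M.mulVec (fun j => (y j : ℝ)) - fun i => (x i : ℝ)‖ < 1 / (k : ℝ) ^ N0}.Infinite := by
  intro hfin
  obtain ⟨K, hK⟩ := hfin.bddAbove
  set F : Finset (Fin n → ℤ) :=
    (Fintype.piFinset fun _ => Finset.Icc (-(K : ℤ)) K).filter (fun y => y ≠ 0) with hF
  have hex : ∀ y : Fin n → ℤ, ∃ N : ℕ, y ≠ 0 → ∀ x : Fin m → ℤ,
      (1 / 2 : ℝ) ^ N ≤ ‖M.mulVec (fun j => (y j : ℝ)) - fun i => (x i : ℝ)‖ := by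
    intro y
    by_cases hy : y = 0
    · exact ⟨0, fun h => absurd hy h⟩
    set v := M.mulVec (fun j => (y j : ℝ)) with hv
    have hpos : 0 < ‖v - fun i => ((round (v i) : ℤ) : ℝ)‖ := by
      rw [norm_pos_iff, sub_ne_zero]
      exact hM.1 y (fun i => round (v i)) (fun h => hy h.1)
    obtain ⟨N, hN⟩ := exists_pow_lt_of_lt_one hpos (by norm_num : (1 / 2 : ℝ) < 1)
    refine ⟨N, fun _ x => hN.le.trans ?_⟩
    rw [pi_norm_le_iff_of_nonneg (norm_nonneg _)]
    intro i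
    refine le_trans ?_ (norm_le_pi_norm (v - fun i => (x i : ℝ)) i)
    rw [Real.norm_eq_abs, Real.norm_eq_abs]
    exact round_le (v i) (x i)
  choose Ny hNy using hex
  set N : ℕ := N0 + 1 + ∑ y ∈ F, Ny y with hN
  obtain ⟨y, x, hy2, hlt⟩ := hM.2 N (by positivity)
  obtain ⟨j, hj1, hj2⟩ := norm_eq hn y
  set k : ℕ := (y j).natAbs with hk
  rw [hj1] at hy2 hlt
  have hk2 : 2 ≤ k := by exact_mod_cast hy2
  have hkpos : (0 : ℝ) < k := by linarith
  have hk1 : (1 : ℝ) ≤ k := by linarith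
  rw [Real.rpow_neg hkpos.le, Real.rpow_natCast, ← one_div] at hlt
  have hmem : k ∈ {k : ℕ | 1 ≤ k ∧ ∃ (y : Fin n → ℤ) (x : Fin m → ℤ), ‖y‖ = k ∧
      ‖M.mulVec (fun j => (y j : ℝ)) - fun i => (x i : ℝ)‖ < 1 / (k : ℝ) ^ N0} := by
    refine ⟨by omega, y, x, hj1, hlt.trans_le ?_⟩
    apply one_div_le_one_div_of_le (by positivity)
    exact pow_le_pow_right₀ hk1 (by omega)
  have hkK : k ≤ K := hK hmem
  have hy0 : y ≠ 0 := by
    rintro rfl
    simp [hk] at hk2
  have hyF : y ∈ F := by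
    rw [hF, Finset.mem_filter, Fintype.mem_piFinset]
    refine ⟨fun l => ?_, hy0⟩
    rw [Finset.mem_Icc]
    have h1 := hj2 l
    have h2 : (k : ℤ) ≤ K := by exact_mod_cast hkK
    exact abs_le.mp (h1.trans h2)
  have hNN : Ny y ≤ N := by
    have := Finset.single_le_sum (f := Ny) (fun _ _ => Nat.zero_le _) hyF
    omega
  have h1 := hNy y hy0 x
  have h2 : 1 / (k : ℝ) ^ N ≤ (1 / 2 : ℝ) ^ (Ny y) := by
    calc 1 / (k : ℝ) ^ N ≤ 1 / (2 : ℝ) ^ N := by
          apply one_div_le_one_div_of_le (by positivity)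
          exact pow_le_pow_left₀ (by norm_num) hy2 N
      _ ≤ 1 / (2 : ℝ) ^ (Ny y) := by
          apply one_div_le_one_div_of_le (by positivity)
          exact pow_le_pow_right₀ (by norm_num) hNN
      _ = _ := by rw [one_div_pow]
  linarith

/-- The linear form in the entries of `A` coming from the rows `i` and `j`. -/
def phi {n : ℕ} (i j : Fin n) (A : Fin n → Fin n → ℝ) (y : Fin n → ℤ) : ℝ :=
  (y j : ℝ) * (∑ l, A i l * y l) - (y i : ℝ) * (∑ l, A j l * y l)

/-- The matrix unit. -/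
def Eij {n : ℕ} (i j : Fin n) : Fin n → Fin n → ℝ := Pi.single i (Pi.single j 1)

theorem phi_add {n : ℕ} {i j : Fin n} (hij : i ≠ j) (A : Fin n → Fin n → ℝ) (y : Fin n → ℤ)
    (t : ℝ) : phi i j (A + t • Eij i j) y = phi i j A y + t * (y j : ℝ) ^ 2 := by
  unfold phi
  have h1 : ∑ l, (A + t • Eij i j) i l * (y l : ℝ) =
      ∑ l, A i l * y l + t * y j := by
    have : ∀ l, (A + t • Eij i j) i l * (y l : ℝ) =
        A i l * y l + (if l = j then t * y j else 0) := by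
      intro l
      simp only [Eij, Pi.add_apply, Pi.smul_apply, Pi.single_eq_same, smul_eq_mul]
      by_cases hl : l = j
      · subst hl
        simp
        ring
      · simp [hl]
    simp only [this]
    rw [Finset.sum_add_distrib]
    simp
  have h2 : ∑ l, (A + t • Eij i j) j l * (y l : ℝ) =
      ∑ l, A j l * y l := by
    apply Finset.sum_congr rfl
    intro l _
    simp [Eij, Pi.single_eq_of_ne hij.symm]
  rw [h1, h2]
  ring

theorem continuous_phi {n : ℕ} (i j : Fin n) (y : Fin n → ℤ) :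
    Continuous fun A : Fin n → Fin n → ℝ => phi i j A y := by
  unfold phi
  fun_prop

/-- The exceptional `k` for `A` and the rows `i, j`. -/
def Exc {n : ℕ} (i j : Fin n) (A : Fin n → Fin n → ℝ) : Set ℕ :=
  {k : ℕ | 1 ≤ k ∧ ∃ y : Fin n → ℤ, (∀ l, |y l| ≤ (k : ℤ)) ∧ |y j| = (k : ℤ) ∧
    ∃ m : ℤ, |phi i j A y - m| < 2 / (k : ℝ) ^ (n + 2)}

theorem isOpen_exc {n : ℕ} (i j : Fin n) (k : ℕ) :
    IsOpen {A : Fin n → Fin n → ℝ | k ∈ Exc i j A} := by
  have : {A : Fin n → Fin n → ℝ | k ∈ Exc i j A} = ⋃ (y : Fin n → ℤ) (m : ℤ)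
      (_ : 1 ≤ k ∧ (∀ l, |y l| ≤ (k : ℤ)) ∧ |y j| = (k : ℤ)),
      {A | |phi i j A y - m| < 2 / (k : ℝ) ^ (n + 2)} := by
    ext A
    simp only [Exc, Set.mem_ofPred_eq, Set.mem_iUnion, exists_prop]
    constructor
    · rintro ⟨h1, y, h2, h3, m, h4⟩
      exact ⟨y, m, ⟨h1, h2, h3⟩, h4⟩
    · rintro ⟨y, m, ⟨h1, h2, h3⟩, h4⟩
      exact ⟨h1, y, h2, h3, m, h4⟩
  rw [this]
  refine isOpen_iUnion fun y => isOpen_iUnion fun m => isOpen_iUnion fun _ => ?_
  exact isOpen_lt (((continuous_phi i j y).sub continuous_const).abs) continuous_const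

theorem measurable_exc {n : ℕ} (i j : Fin n) :
    MeasurableSet {A : Fin n → Fin n → ℝ | (Exc i j A).Finite} := by
  have : {A : Fin n → Fin n → ℝ | (Exc i j A).Finite} =
      ⋃ K : ℕ, ⋂ (k : ℕ) (_ : K < k), {A : Fin n → Fin n → ℝ | k ∈ Exc i j A}ᶜ := by
    ext A
    simp only [Set.mem_ofPred_eq, Set.mem_iUnion, Set.mem_iInter, Set.mem_compl_iff]
    constructor
    · intro h
      obtain ⟨K, hK⟩ := h.bddAbove
      exact ⟨K, fun k hk hmem => absurd (hK hmem) (by omega)⟩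
    · rintro ⟨K, hK⟩
      refine (Set.finite_Iic K).subset fun k hk => ?_
      by_contra hlt
      exact hK k (by simpa using hlt) hk
  rw [this]
  exact MeasurableSet.iUnion fun K => MeasurableSet.iInter fun k => MeasurableSet.iInter fun _ =>
    (isOpen_exc i j k).measurableSet.compl

theorem ae_exc {n : ℕ} {i j : Fin n} (hij : i ≠ j) :
    ∀ᵐ A : Fin n → Fin n → ℝ, (Exc i j A).Finite := by
  set L : ℝ →ₗ[ℝ] (Fin n → Fin n → ℝ) :=
    LinearMap.toSpanSingleton ℝ _ (Eij i j) with hL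
  refine ae_mem_of_ae_add_linearMap_mem L volume volume (measurable_exc i j) ?_
  intro A
  filter_upwards [Pool.Agent.V11270.Liou.ae_finite (fun y => phi i j A y)] with t ht
  refine ht.subset ?_
  rintro k ⟨hk, y, hy, hyj, m, hm⟩
  refine ⟨hk, y, hy, m, ?_⟩
  have h1 : A + L t = A + t • Eij i j := by
    rw [hL, LinearMap.toSpanSingleton_apply]
  rw [h1, phi_add hij] at hm
  have h2 : ((y j : ℤ) : ℝ) ^ 2 = (k : ℝ) ^ 2 := by
    rw [← sq_abs, ← Int.cast_abs, hyj]
    simp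
  rwa [h2] at hm

/-- For every `n ≥ 2` and Lebesgue-almost every real `n × n` matrix `A`, no real `lam` makes
`A - lam I` a Liouville matrix. -/
theorem result : ∀ n : ℕ, 2 ≤ n → ∀ᵐ A : Fin n → Fin n → ℝ, ∀ lam : ℝ,
    ¬ IsLiouvilleMatrix (Matrix.of A - lam • (1 : Matrix (Fin n) (Fin n) ℝ)) := by
  intro n hn
  have hall : ∀ᵐ A : Fin n → Fin n → ℝ, ∀ i j : Fin n, i ≠ j → (Exc i j A).Finite := by
    rw [ae_all_iff]
    intro i
    rw [ae_all_iff]
    intro j
    by_cases hij : i = j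
    · exact Filter.Eventually.of_forall fun A h => absurd hij h
    · filter_upwards [ae_exc hij] with A hA _
      exact hA
  filter_upwards [hall] with A hA lam hLi
  have hinf := inf_many (by omega) hLi (n + 3)
  apply hinf
  have hfin : (⋃ (i : Fin n) (j : Fin n) (_ : i ≠ j), Exc i j A).Finite := by
    refine Set.finite_iUnion fun i => Set.finite_iUnion fun j => ?_
    exact Set.finite_iUnion fun h => hA i j h
  refine hfin.subset ?_
  rintro k ⟨hk, y, x, hyk, hlt⟩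
  obtain ⟨j, hj1, hj2⟩ := norm_eq (by omega) y
  have hkj : k = (y j).natAbs := by
    rw [hyk] at hj1
    exact_mod_cast hj1
  have : Nontrivial (Fin n) := Fin.nontrivial_iff_two_le.mpr hn
  obtain ⟨i, hij⟩ := exists_ne j
  simp only [Set.mem_iUnion]
  refine ⟨i, j, hij, hk, y, ?_, ?_, y j * x i - y i * x j, ?_⟩
  · intro l
    rw [hkj]
    exact hj2 l
  · rw [hkj]
    exact (Int.natCast_natAbs (y j)).symm
  have hk1 : (1 : ℝ) ≤ k := by exact_mod_cast hk
  have hkpos : (0 : ℝ) < k := by linarith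
  set v := (Matrix.of A - lam • (1 : Matrix (Fin n) (Fin n) ℝ)).mulVec (fun j => (y j : ℝ)) with hv
  have hval : ∀ r, v r = ∑ l, A r l * y l - lam * y r := by
    intro r
    rw [hv, Matrix.sub_mulVec, Pi.sub_apply, Matrix.smul_mulVec, Matrix.one_mulVec]
    simp [Matrix.mulVec, dotProduct]
  have heps : ∀ r, |v r - x r| < 1 / (k : ℝ) ^ (n + 3) := by
    intro r
    exact lt_of_le_of_lt (norm_le_pi_norm (v - fun i => (x i : ℝ)) r) hlt
  have hphi : phi i j A y - ((y j * x i - y i * x j : ℤ) : ℝ) =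
      (y j : ℝ) * (v i - x i) - (y i : ℝ) * (v j - x j) := by
    rw [hval, hval]
    unfold phi
    push_cast
    ring
  rw [hphi]
  have hyl : ∀ l, |(y l : ℝ)| ≤ k := by
    intro l
    rw [← Int.cast_abs]
    have h1 := hj2 l
    rw [← hkj] at h1
    exact_mod_cast h1
  have hyj : |(y j : ℝ)| = k := by
    rw [← Int.cast_abs, hkj, Nat.cast_natAbs]
  calc |(y j : ℝ) * (v i - x i) - (y i : ℝ) * (v j - x j)|
      ≤ |(y j : ℝ)| * |v i - x i| + |(y i : ℝ)| * |v j - x j| := by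
        rw [← abs_mul, ← abs_mul]
        exact abs_sub _ _
    _ < k * (1 / (k : ℝ) ^ (n + 3)) + k * (1 / (k : ℝ) ^ (n + 3)) := by
        apply add_lt_add_of_lt_of_le
        · rw [hyj]
          exact mul_lt_mul_of_pos_left (heps i) hkpos
        · exact mul_le_mul (hyl i) (heps j).le (abs_nonneg _) hkpos.le
    _ = 2 / (k : ℝ) ^ (n + 2) := by
        rw [pow_succ (k : ℝ) (n + 2)]
        field_simp
        ring

end Pool.Agent.Results.MP_14d1e0_nt.AlmostNoShift
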